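import Mathlib

/-!
# Primitive positive constructions between digraphs (definitions)
-/

namespace Pool.Agent.H21.QH

/-! ## Definitions used in the statement -/

/-- Primitive positive formulas over one binary relation symbol, with free variables indexed by
`Fin n`: atomic formulas (edge or equality), conjunction, existential quantification (the
quantified variable is the last one). -/
inductive PP : ℕ → Type
  | edge {n : ℕ} (i j : Fin n) : PP n
  | eq {n : ℕ} (i j : Fin n) : PP n
  | and {n : ℕ} (φ ψ : PP n) : PP n
  | ex {n : ℕ} (φ : PP (n + 1)) : PP n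

/-- Satisfaction of a primitive positive formula in the digraph `(B, E)`. -/
def Holds {B : Type} (E : B → B → Prop) : {n : ℕ} → PP n → (Fin n → B) → Prop
  | _, .edge i j, v => E (v i) (v j)
  | _, .eq i j, v => v i = v j
  | _, .and φ ψ, v => Holds E φ v ∧ Holds E ψ v
  | _, .ex φ, v => ∃ b : B, Holds E φ (Fin.snoc v b)

/-- Homomorphisms of digraphs. -/
def IsHom {A B : Type} (E : A → A → Prop) (E' : B → B → Prop) (f : A → B) : Prop :=
  ∀ x y, E x y → E' (f x) (f y)

/-- The edge relation on `B ^ d` which, read as a relation of arity `d + d` on `B`, is defined by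
the primitive positive formula `φ`. -/
def PowerRel {B : Type} (E : B → B → Prop) (d : ℕ) (φ : PP (d + d)) (x y : Fin d → B) : Prop :=
  Holds E φ (Fin.append x y)

/-- The digraph `(B, E)` pp-constructs the digraph `(A, E')`: some pp-power of `(B, E)` (a
digraph) is homomorphically equivalent to `(A, E')`. -/
def PPConstructs {B A : Type} (E : B → B → Prop) (E' : A → A → Prop) : Prop :=
  ∃ d : ℕ, 1 ≤ d ∧ ∃ φ : PP (d + d),
    (∃ f : A → (Fin d → B), IsHom E' (PowerRel E d φ) f) ∧
    (∃ g : (Fin d → B) → A, IsHom (PowerRel E d φ) E' g)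

/-- The edge relation of the categorical product of `(ℚ, <)` with the digraph `(A, E)`. -/
def RatProd {A : Type} (E : A → A → Prop) (x y : ℚ × A) : Prop :=
  x.1 < y.1 ∧ E x.2 y.2

end Pool.Agent.H21.QH
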