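import Pool.Agent.H21.QH.Defs

/-!
# A finite digraph `H` such that `ℚ × H` does not pp-construct `H`

The digraph `V`, `Adj` below has no quasi near-unanimity polymorphism (`no_qnu`), but for every
finite `W` there is a near-unanimity operation which is a partial polymorphism of `ℚ × H` on `W`
(`exists_nu`).
-/

namespace Pool.Agent.H21.QH

/-! ## Preservation of pp-formulas by partial polymorphisms -/

/-- Satisfaction with all witnesses in `W`. -/
def HoldsOn {B : Type} (E : B → B → Prop) (W : Set B) : {n : ℕ} → PP n → (Fin n → B) → Prop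
  | _, .edge i j, v => E (v i) (v j)
  | _, .eq i j, v => v i = v j
  | _, .and φ ψ, v => HoldsOn E W φ v ∧ HoldsOn E W ψ v
  | _, .ex φ, v => ∃ b ∈ W, HoldsOn E W φ (Fin.snoc v b)

theorem holdsOn_mono {B : Type} {E : B → B → Prop} {W W' : Set B} (hW : W ⊆ W') :
    ∀ {n : ℕ} (φ : PP n) (v : Fin n → B), HoldsOn E W φ v → HoldsOn E W' φ v := by
  intro n φ
  induction φ with
  | edge i j => intro v h; exact h
  | eq i j => intro v h; exact h
  | and φ ψ ih1 ih2 => intro v h; exact ⟨ih1 v h.1, ih2 v h.2⟩
  | ex φ ih =>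
    intro v h
    obtain ⟨b, hb, h⟩ := h
    exact ⟨b, hW hb, ih _ h⟩

theorem exists_finite_holdsOn {B : Type} {E : B → B → Prop} :
    ∀ {n : ℕ} (φ : PP n) (v : Fin n → B), Holds E φ v →
      ∃ W : Set B, W.Finite ∧ HoldsOn E W φ v := by
  intro n φ
  induction φ with
  | edge i j => intro v h; exact ⟨∅, Set.finite_empty, h⟩
  | eq i j => intro v h; exact ⟨∅, Set.finite_empty, h⟩
  | and φ ψ ih1 ih2 =>
    intro v h
    obtain ⟨W1, hf1, h1⟩ := ih1 v h.1
    obtain ⟨W2, hf2, h2⟩ := ih2 v h.2
    exact ⟨W1 ∪ W2, hf1.union hf2, holdsOn_mono Set.subset_union_left _ _ h1,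
      holdsOn_mono Set.subset_union_right _ _ h2⟩
  | ex φ ih =>
    intro v h
    obtain ⟨b, h⟩ := h
    obtain ⟨W, hf, hW⟩ := ih _ h
    exact ⟨insert b W, hf.insert b, b, Set.mem_insert _ _,
      holdsOn_mono (Set.subset_insert _ _) _ _ hW⟩

/-- `g` is a partial polymorphism of `(B, E)` on `W`. -/
def PolOn {B : Type} (E : B → B → Prop) (W : Set B) {m : ℕ} (g : (Fin m → B) → B) : Prop :=
  ∀ x y : Fin m → B, (∀ i, x i ∈ W) → (∀ i, y i ∈ W) → (∀ i, E (x i) (y i)) → E (g x) (g y)

theorem holds_of_polOn {B : Type} {E : B → B → Prop} {W : Set B} {m : ℕ}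
    {g : (Fin m → B) → B} (hg : PolOn E W g) :
    ∀ {n : ℕ} (φ : PP n) (v : Fin m → Fin n → B), (∀ i k, v i k ∈ W) →
      (∀ i, HoldsOn E W φ (v i)) → Holds E φ (fun k => g (fun i => v i k)) := by
  intro n φ
  induction φ with
  | edge a b =>
    intro v hv h
    exact hg _ _ (fun i => hv i a) (fun i => hv i b) h
  | eq a b =>
    intro v hv h
    have : (fun i => v i a) = (fun i => v i b) := funext h
    simp only [Holds, this]
  | and φ ψ ih1 ih2 =>
    intro v hv h
    exact ⟨ih1 v hv (fun i => (h i).1), ih2 v hv (fun i => (h i).2)⟩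
  | @ex n φ ih =>
    intro v hv h
    choose b hb hb' using h
    refine ⟨g b, ?_⟩
    have key := ih (fun i => (Fin.snoc (v i) (b i) : Fin (n + 1) → B)) ?_ hb'
    · convert key using 1
      funext k
      refine Fin.lastCases ?_ (fun k => ?_) k
      · simp
      · simp
    · intro i k
      refine Fin.lastCases ?_ (fun k => ?_) k
      · simpa using hb i
      · simpa using hv i k

/-! ## The digraph -/

/-- Vertices: `K p a b c` (`p` a phase modulo two, `a b c` three bits), a directed 3-cycle `C`,
a directed 6-cycle `Z`, and two sources `s`, `t`. The vertices `K p true true c` are isolated. -/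
inductive V : Type
  | K (p a b c : Bool) : V
  | C (j : ZMod 3) : V
  | Z (p : Bool) (j : ZMod 3) : V
  | s : V
  | t : V

/-- The edges. -/
def Adj : V → V → Prop
  | .K p a b c, .K p' a' b' c' => p' = !p ∧ (a = true → b' = true) ∧ (b = true → c' = true) ∧
      (b = true → c = true → a' = true) ∧ ¬(a = true ∧ b = true) ∧ ¬(a' = true ∧ b' = true)
  | .C j, .C j' => j' = j + 1
  | .Z p j, .Z p' j' => p' = !p ∧ j' = j + 1
  | .s, .K _ a b _ => a = true ∧ b = false
  | .s, .C _ => True
  | .s, .Z _ _ => True
  | .t, .K _ a b _ => ¬(a = true ∧ b = true)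
  | .t, .Z _ _ => True
  | _, _ => False

/-- First bit. -/
def bA : V → Prop
  | .K _ a _ _ => a = true
  | _ => False

/-- Second bit. -/
def bB : V → Prop
  | .K _ _ b _ => b = true
  | _ => False

/-- Third bit. -/
def bC : V → Prop
  | .K _ _ _ c => c = true
  | _ => False

/-- Membership in the part `K`. -/
def isK : V → Prop
  | .K _ _ _ _ => True
  | _ => False

/-- Membership in the 3-cycle. -/
def isC : V → Prop
  | .C _ => True
  | _ => False

/-- Membership in the 6-cycle. -/
def isZ : V → Prop
  | .Z _ _ => True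
  | _ => False

/-- Being one of the two sources. -/
def isS : V → Prop
  | .s => True
  | .t => True
  | _ => False

/-- Phase modulo two. -/
def ph2 : V → Bool
  | .K p _ _ _ => p
  | .Z p _ => p
  | _ => false

/-- Phase modulo three. -/
def ph3 : V → ZMod 3
  | .C j => j
  | .Z _ j => j
  | _ => 0

instance : Finite V := by
  let f : (Bool × Bool × Bool × Bool) ⊕ ZMod 3 ⊕ (Bool × ZMod 3) ⊕ Bool → V := fun x =>
    match x with
    | .inl (p, a, b, c) => .K p a b c
    | .inr (.inl j) => .C j
    | .inr (.inr (.inl (p, j))) => .Z p j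
    | .inr (.inr (.inr true)) => .s
    | .inr (.inr (.inr false)) => .t
  refine Finite.of_surjective f ?_
  intro v
  cases v with
  | K p a b c => exact ⟨.inl (p, a, b, c), rfl⟩
  | C j => exact ⟨.inr (.inl j), rfl⟩
  | Z p j => exact ⟨.inr (.inr (.inl (p, j))), rfl⟩
  | s => exact ⟨.inr (.inr (.inr true)), rfl⟩
  | t => exact ⟨.inr (.inr (.inr false)), rfl⟩

theorem adj_ab {x y : V} (h : Adj x y) (ha : bA x) : bB y := by
  cases x with
  | K p a b c =>
    cases y with
    | K p' a' b' c' => exact h.2.1 ha
    | _ => exact False.elim h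
  | _ => exact False.elim ha

theorem adj_bc {x y : V} (h : Adj x y) (ha : bB x) : bC y := by
  cases x with
  | K p a b c =>
    cases y with
    | K p' a' b' c' => exact h.2.2.1 ha
    | _ => exact False.elim h
  | _ => exact False.elim ha

theorem adj_and {x y : V} (h : Adj x y) (hb : bB x) (hc : bC x) : bA y := by
  cases x with
  | K p a b c =>
    cases y with
    | K p' a' b' c' => exact h.2.2.2.1 hb hc
    | _ => exact False.elim h
  | _ => exact False.elim hb

theorem adj_valid {x y : V} (h : Adj x y) : ¬(bA y ∧ bB y) := by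
  intro hy
  cases y with
  | K p' a' b' c' =>
    cases x with
    | K p a b c => exact h.2.2.2.2.2 hy
    | s =>
      have h2 : b' = false := h.2
      have h3 : b' = true := hy.2
      rw [h2] at h3
      exact Bool.noConfusion h3
    | t => exact h hy
    | _ => exact False.elim h
  | _ => exact False.elim hy.1

theorem adj_valid_left {x y : V} (h : Adj x y) : ¬(bA x ∧ bB x) := by
  intro hx
  cases x with
  | K p a b c =>
    cases y with
    | K p' a' b' c' => exact h.2.2.2.2.1 hx
    | _ => exact False.elim h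
  | _ => exact False.elim hx.1

theorem isK_of_adj {a b : V} (hab : Adj a b) (ha : isK a) : isK b := by
  cases a with
  | K p a1 a2 a3 =>
    cases b with
    | K p' a' b' c' => trivial
    | _ => exact False.elim hab
  | _ => exact False.elim ha

theorem adj_s {y : V} (h : Adj .s y) (hy : isK y) : bA y := by
  cases y with
  | K p a b c => exact h.1
  | _ => exact False.elim hy

theorem succ_ne : ∀ j : ZMod 3, j + 1 ≠ j := by decide

theorem succ_succ_ne : ∀ j : ZMod 3, j ≠ j + 1 + 1 := by decide

theorem triangle {v a b c : V} (hab : Adj a b) (hbc : Adj b c) (hca : Adj c a) (ha : Adj v a)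
    (hb : Adj v b) : v = .s := by
  cases a with
  | K p a1 a2 a3 =>
    cases b with
    | K q b1 b2 b3 =>
      cases c with
      | K r c1 c2 c3 =>
        have h1 : q = !p := hab.1
        have h2 : r = !q := hbc.1
        have h3 : p = !r := hca.1
        subst h1 h2
        cases p <;> exact Bool.noConfusion h3
      | _ => exact False.elim hbc
    | _ => exact False.elim hab
  | C j =>
    cases b with
    | C k =>
      cases v with
      | C i =>
        have h1 : k = j + 1 := hab
        have h2 : j = i + 1 := ha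
        have h3 : k = i + 1 := hb
        rw [h1, ← h2] at h3
        exact absurd h3 (succ_ne j)
      | s => rfl
      | _ => exact False.elim ha
    | _ => exact False.elim hab
  | Z p j =>
    cases b with
    | Z q k =>
      cases c with
      | Z r l =>
        have h1 : q = !p := hab.1
        have h2 : r = !q := hbc.1
        have h3 : p = !r := hca.1
        subst h1 h2
        cases p <;> exact Bool.noConfusion h3
      | _ => exact False.elim hbc
    | _ => exact False.elim hab
  | s => cases c <;> exact False.elim hca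
  | t => cases c <;> exact False.elim hca

theorem two_cycle {a b : V} (hab : Adj a b) (hba : Adj b a) : isK a := by
  cases a with
  | K p a1 a2 a3 => trivial
  | C j =>
    cases b with
    | C k =>
      have h1 : k = j + 1 := hab
      have h2 : j = k + 1 := hba
      rw [h1] at h2
      exact absurd h2 (succ_succ_ne j)
    | _ => exact False.elim hab
  | Z p j =>
    cases b with
    | Z q k =>
      have h1 : k = j + 1 := hab.2
      have h2 : j = k + 1 := hba.2
      rw [h1] at h2
      exact absurd h2 (succ_succ_ne j)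
    | _ => exact False.elim hab
  | s => cases b <;> exact False.elim hba
  | t => cases b <;> exact False.elim hba

/-! ## The digraph has no quasi near-unanimity polymorphism -/

theorem no_qnu {m : ℕ} (f : (Fin m → V) → V)
    (hpol : ∀ x y : Fin m → V, (∀ i, Adj (x i) (y i)) → Adj (f x) (f y))
    (hnu : ∀ (x y : V) (j : Fin m),
      f (Function.update (fun _ => x) j y) = f (fun _ => x)) : False := by
  classical
  -- the source `s` is fixed
  have hs : f (fun _ => .s) = .s := by
    have e01 : Adj (f (fun _ => .C 0)) (f (fun _ => .C 1)) :=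
      hpol _ _ (fun _ => show (1 : ZMod 3) = 0 + 1 by decide)
    have e12 : Adj (f (fun _ => .C 1)) (f (fun _ => .C 2)) :=
      hpol _ _ (fun _ => show (2 : ZMod 3) = 1 + 1 by decide)
    have e20 : Adj (f (fun _ => .C 2)) (f (fun _ => .C 0)) :=
      hpol _ _ (fun _ => show (0 : ZMod 3) = 2 + 1 by decide)
    exact triangle e01 e12 e20 (hpol _ _ (fun _ => trivial)) (hpol _ _ (fun _ => trivial))
  -- constant zero tuples go to `K`
  have hz : ∀ p : Bool, isK (f (fun _ => .K p false false false)) := by
    intro p
    refine two_cycle (b := f (fun _ => .K (!p) false false false)) ?_ ?_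
    · exact hpol _ _ (fun _ => ⟨rfl, by simp, by simp, by simp, by simp, by simp⟩)
    · exact hpol _ _ (fun _ => ⟨by simp, by simp, by simp, by simp, by simp, by simp⟩)
  -- leaves
  have hleaf : ∀ p : Bool, bA (f (fun _ => .K p true false false)) := by
    intro p
    have h1 : Adj (f (fun _ => .K (!p) false false false)) (f (fun _ => .K p true false false)) :=
      hpol _ _ (fun _ => ⟨by simp, by simp, by simp, by simp, by simp, by simp⟩)
    have h2 : Adj (f (fun _ => .s)) (f (fun _ => .K p true false false)) :=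
      hpol _ _ (fun _ => ⟨rfl, rfl⟩)
    rw [hs] at h2
    exact adj_s h2 (isK_of_adj h1 (hz _))
  -- the gate, first half: a tuple whose value has second and third bit
  have hgate : ∀ (p : Bool) (S T γ δ : Fin m → Bool),
      bA (f (fun i => .K p (S i) false (γ i))) → bA (f (fun i => .K (!p) (T i) false (δ i))) →
      bB (f (fun i => .K (!p) false (S i) (T i))) ∧ bC (f (fun i => .K (!p) false (S i) (T i))) := by
    intro p S T γ δ hS hT
    constructor
    · exact adj_ab (hpol (fun i => .K p (S i) false (γ i)) _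
        (fun i => ⟨rfl, by simp, by simp, by simp, by simp, by simp⟩)) hS
    · have h1 : bB (f (fun i => .K p false (T i) false)) :=
        adj_ab (hpol (fun i => .K (!p) (T i) false (δ i)) _
          (fun i => ⟨by simp, by simp, by simp, by simp, by simp, by simp⟩)) hT
      exact adj_bc (hpol (fun i => .K p false (T i) false) _
        (fun i => ⟨rfl, by simp, by simp, by simp, by simp, by simp⟩)) h1
  -- all subsets
  have hall : ∀ (J : Finset (Fin m)) (p : Bool),
      ∃ γ : Fin m → Bool, bA (f (fun i => .K p (decide (i ∉ J)) false (γ i))) := by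
    intro J
    induction J using Finset.induction_on with
    | empty =>
      intro p
      refine ⟨fun _ => false, ?_⟩
      simpa using hleaf p
    | insert j J hj ih =>
      intro p
      obtain ⟨γ, hγ⟩ := ih p
      have hone : bA (f (fun i => .K (!p) (decide (i ≠ j)) false false)) := by
        have h1 := hnu (.K (!p) true false false) (.K (!p) false false false) j
        have h2 : (Function.update (fun _ => V.K (!p) true false false) j
            (V.K (!p) false false false)) = fun i : Fin m => V.K (!p) (decide (i ≠ j)) false false := by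
          funext i
          by_cases hi : i = j
          · subst hi; simp
          · simp [hi]
        rw [h2] at h1
        rw [h1]
        exact hleaf _
      obtain ⟨g1, g2⟩ := hgate p (fun i => decide (i ∉ J)) (fun i => decide (i ≠ j)) γ
        (fun _ => false) hγ hone
      refine ⟨fun i => decide (i ∉ J), ?_⟩
      refine adj_and (hpol
        (fun i => .K (!p) false (decide (i ∉ J)) (decide (i ≠ j))) _ (fun i => ?_)) g1 g2
      refine ⟨by simp, by simp, by simp, ?_, by simp, by simp⟩
      intro h1 h2
      simp only [decide_eq_true_eq] at h1 h2 ⊢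
      simp only [Finset.mem_insert, not_or]
      exact ⟨h2, h1⟩
  -- contradiction
  obtain ⟨γ, hγ⟩ := hall Finset.univ false
  obtain ⟨δ, hδ⟩ := hall Finset.univ true
  have hγ' : bA (f (fun i => .K false false false (γ i))) := by simpa using hγ
  have hδ' : bA (f (fun i => .K (!false) false false (δ i))) := by simpa using hδ
  obtain ⟨g1, g2⟩ := hgate false (fun _ => false) (fun _ => false) γ δ hγ' hδ'
  have e1 : Adj (f (fun _ => .K (!false) false false false)) (f (fun _ => .K false false true false)) :=
    hpol _ _ (fun _ => ⟨by simp, by simp, by simp, by simp, by simp, by simp⟩)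
  have e2 : Adj (f (fun _ => .K true true false false)) (f (fun _ => .K false false true false)) :=
    hpol _ _ (fun _ => ⟨by simp, by simp, by simp, by simp, by simp, by simp⟩)
  exact adj_valid e1 ⟨adj_and e1 g1 g2, adj_ab e2 (hleaf true)⟩

/-! ## Near-unanimity operations with thresholds -/

section Ops

open scoped Classical

variable {m : ℕ}

/-- `Q` holds at all coordinates but at most one. -/
def AA (Q : Fin m → Prop) : Prop := ∃ j, ∀ i, i ≠ j → Q i

/-- `Q` fails at no more than `z` coordinates. -/
def Few (z : ℕ) (Q : Fin m → Prop) : Prop := (Finset.univ.filter (fun i => ¬ Q i)).card ≤ z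

/-- At most one of the participants (coordinates in `P`) differs from `x i`. -/
def Good {α : Type} (P : Fin m → Prop) (x : Fin m → α) (i : Fin m) : Prop :=
  P i ∧ ∃ j, ∀ k, P k → k ≠ j → x k = x i

/-- The coordinate which decides the vote among the participants `P`. -/
noncomputable def dict [NeZero m] {α : Type} (P : Fin m → Prop) (x : Fin m → α) : Fin m :=
  Classical.epsilon (fun i => P i ∧ ((∃ k, Good P x k) → Good P x i))

theorem dict_spec [NeZero m] {α : Type} {P : Fin m → Prop} (x : Fin m → α) (hP : ∃ k, P k) :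
    P (dict P x) ∧ ((∃ k, Good P x k) → Good P x (dict P x)) := by
  apply Classical.epsilon_spec (p := fun i => P i ∧ ((∃ k, Good P x k) → Good P x i))
  by_cases h : ∃ k, Good P x k
  · obtain ⟨k, hk⟩ := h
    exact ⟨k, hk.1, fun _ => hk⟩
  · obtain ⟨k, hk⟩ := hP
    exact ⟨k, hk, fun h' => absurd h' h⟩

theorem vote_shift [NeZero m] {α : Type} {P P' : Fin m → Prop} {x x' : Fin m → α} {σ : α → α}
    (hσ : Function.Injective σ) (hP : ∀ i, P i ↔ P' i) (hne : ∃ k, P k)
    (hx : ∀ i, P i → x' i = σ (x i)) : x' (dict P' x') = σ (x (dict P x)) := by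
  have hgood : ∀ i, Good P x i ↔ Good P' x' i := by
    intro i
    constructor
    · rintro ⟨h1, j, h2⟩
      refine ⟨(hP i).1 h1, j, fun k hk hkj => ?_⟩
      rw [hx k ((hP k).2 hk), hx i h1, h2 k ((hP k).2 hk) hkj]
    · rintro ⟨h1, j, h2⟩
      refine ⟨(hP i).2 h1, j, fun k hk hkj => ?_⟩
      have := h2 k ((hP k).1 hk) hkj
      rw [hx k hk, hx i ((hP i).2 h1)] at this
      exact hσ this
  have hd : dict P' x' = dict P x := by
    unfold dict
    congr 1
    funext i
    simp only [← hgood, ← hP]
  rw [hd, hx _ (dict_spec x hne).1]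

theorem exists_third (hm : 3 ≤ m) (i j : Fin m) : ∃ k : Fin m, k ≠ i ∧ k ≠ j :=
  Fin.exists_ne_and_ne_of_two_lt i j hm

theorem vote_eq [NeZero m] (hm : 3 ≤ m) {α : Type} {P : Fin m → Prop} {x : Fin m → α} {a : α}
    {j : Fin m} (h : ∀ k, k ≠ j → P k ∧ x k = a) : x (dict P x) = a := by
  obtain ⟨k, hk, -⟩ := exists_third hm j j
  have hg : Good P x k := ⟨(h k hk).1, j, fun l _ hl => by rw [(h l hl).2, (h k hk).2]⟩
  obtain ⟨-, j', h'⟩ := (dict_spec x ⟨k, (h k hk).1⟩).2 ⟨k, hg⟩
  obtain ⟨l, hl1, hl2⟩ := exists_third hm j j'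
  rw [← h' l (h l hl1).1 hl2, (h l hl1).2]

theorem aa_mono {P Q : Fin m → Prop} (h : ∀ i, P i → Q i) (hP : AA P) : AA Q := by
  obtain ⟨j, hj⟩ := hP
  exact ⟨j, fun i hi => h i (hj i hi)⟩

theorem aa_both (hm : 3 ≤ m) {P Q : Fin m → Prop} (hP : AA P) (hQ : AA Q) : ∃ i, P i ∧ Q i := by
  obtain ⟨j, hj⟩ := hP
  obtain ⟨j', hj'⟩ := hQ
  obtain ⟨k, hk1, hk2⟩ := exists_third hm j j'
  exact ⟨k, hj k hk1, hj' k hk2⟩

theorem few_mono {z z' : ℕ} (hz : z ≤ z') {P Q : Fin m → Prop} (h : ∀ i, P i → Q i)
    (hP : Few z P) : Few z' Q := by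
  unfold Few at *
  refine le_trans (Finset.card_le_card ?_) (hP.trans hz)
  intro i hi
  simp only [Finset.mem_filter, Finset.mem_univ, true_and] at hi ⊢
  exact fun h' => hi (h i h')

theorem few_and {z z' : ℕ} (hz : 2 * z ≤ z') {P Q R : Fin m → Prop}
    (h : ∀ i, P i → Q i → R i) (hP : Few z P) (hQ : Few z Q) : Few z' R := by
  unfold Few at *
  have h1 : (Finset.univ.filter (fun i => ¬ R i)) ⊆
      (Finset.univ.filter (fun i => ¬ P i)) ∪ (Finset.univ.filter (fun i => ¬ Q i)) := by
    intro i hi
    simp only [Finset.mem_filter, Finset.mem_univ, true_and, Finset.mem_union] at hi ⊢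
    by_contra hcon
    push Not at hcon
    exact hi (h i hcon.1 hcon.2)
  have h2 := (Finset.card_le_card h1).trans (Finset.card_union_le _ _)
  omega

theorem few_both {z : ℕ} (hz : 2 * z < m) {P Q : Fin m → Prop} (hP : Few z P) (hQ : Few z Q) :
    ∃ i, P i ∧ Q i := by
  by_contra hcon
  push Not at hcon
  have h1 : Few (2 * z) (fun _ : Fin m => False) := few_and le_rfl hcon hP hQ
  unfold Few at h1
  simp at h1
  omega

theorem few_of_aa {z : ℕ} (hz : 1 ≤ z) {P : Fin m → Prop} (hP : AA P) : Few z P := by
  obtain ⟨j, hj⟩ := hP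
  unfold Few
  refine le_trans (Finset.card_le_card (t := {j}) ?_) (by simpa using hz)
  intro i hi
  simp only [Finset.mem_filter, Finset.mem_univ, true_and] at hi
  by_contra hcon
  exact hi (hj i (by simpa using hcon))

theorem few_of_aa_aa {z : ℕ} (hz : 2 ≤ z) {P Q R : Fin m → Prop} (hP : AA P) (hQ : AA Q)
    (h : ∀ i, P i → Q i → R i) : Few z R :=
  few_and (z := 1) (by omega) h (few_of_aa le_rfl hP) (few_of_aa le_rfl hQ)

theorem not_few_of_aa {z : ℕ} (hz : z + 1 < m) {P : Fin m → Prop} (hP : AA (fun i => ¬ P i)) :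
    ¬ Few z P := by
  intro h
  have h1 : (Finset.univ.filter (fun i => ¬ ¬ P i)).card ≤ 1 := by
    have := few_of_aa (P := fun i => ¬ P i) le_rfl hP
    unfold Few at this
    convert this
  have h2 : (Finset.univ.filter (fun i => ¬ P i)).card ≤ z := h
  have h3 : (Finset.univ : Finset (Fin m)) ⊆
      (Finset.univ.filter (fun i => ¬ P i)) ∪ (Finset.univ.filter (fun i => ¬ ¬ P i)) := by
    intro i _
    simp only [Finset.mem_filter, Finset.mem_univ, true_and, Finset.mem_union]
    tauto
  have h4 := (Finset.card_le_card h3).trans (Finset.card_union_le _ _)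
  simp only [Finset.card_univ, Fintype.card_fin] at h4
  omega

theorem not_isS_of_adj {x y : V} (h : Adj x y) : ¬ isS y := by
  intro hy
  cases y with
  | s => cases x <;> exact False.elim h
  | t => cases x <;> exact False.elim h
  | _ => exact False.elim hy

theorem isC_of_adj {x y : V} (h : Adj x y) (hx : isC x) : isC y := by
  cases x with
  | C j =>
    cases y with
    | C k => trivial
    | _ => exact False.elim h
  | _ => exact False.elim hx

theorem isZ_of_adj {x y : V} (h : Adj x y) (hx : isZ x) : isZ y := by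
  cases x with
  | Z p j =>
    cases y with
    | Z q k => trivial
    | _ => exact False.elim h
  | _ => exact False.elim hx

theorem isC_back {x y : V} (h : Adj x y) (hy : isC y) : x = .s ∨ isC x := by
  cases y with
  | C j =>
    cases x with
    | C k => right; trivial
    | s => left; rfl
    | _ => exact False.elim h
  | _ => exact False.elim hy

theorem cases_nonS {x : V} (h : ¬ isS x) : isK x ∨ isC x ∨ isZ x := by
  cases x with
  | K p a b c => left; trivial
  | C j => right; left; trivial
  | Z p j => right; right; trivial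
  | s => exact absurd trivial h
  | t => exact absurd trivial h

theorem not_isC_of_isK {x : V} (h : isK x) : ¬ isC x := by
  cases x with
  | K p a b c => exact fun h => h
  | _ => exact False.elim h

theorem not_isZ_of_isK {x : V} (h : isK x) : ¬ isZ x := by
  cases x with
  | K p a b c => exact fun h => h
  | _ => exact False.elim h

theorem not_isZ_of_isC {x : V} (h : isC x) : ¬ isZ x := by
  cases x with
  | C j => exact fun h => h
  | _ => exact False.elim h

theorem not_isS_of_isK {x : V} (h : isK x) : ¬ isS x := by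
  cases x with
  | K p a b c => exact fun h => h
  | _ => exact False.elim h

theorem isC_iff {x y : V} (h : Adj x y) (hx : ¬ isS x) : isC x ↔ isC y := by
  refine ⟨isC_of_adj h, fun hy => ?_⟩
  rcases isC_back h hy with h1 | h1
  · subst h1; exact absurd trivial hx
  · exact h1

theorem isK_iff {x y : V} (h : Adj x y) (hx : ¬ isS x) : isK x ↔ isK y := by
  refine ⟨isK_of_adj h, fun hy => ?_⟩
  rcases cases_nonS hx with h1 | h1 | h1
  · exact h1
  · exact absurd (isC_of_adj h h1) (not_isC_of_isK hy)
  · exact absurd (isZ_of_adj h h1) (not_isZ_of_isK hy)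

theorem isZ_iff {x y : V} (h : Adj x y) (hx : ¬ isS x) : isZ x ↔ isZ y := by
  refine ⟨isZ_of_adj h, fun hy => ?_⟩
  rcases cases_nonS hx with h1 | h1 | h1
  · exact absurd hy (not_isZ_of_isK (isK_of_adj h h1))
  · exact absurd hy (not_isZ_of_isC (isC_of_adj h h1))
  · exact h1

theorem ph2_shift {x y : V} (h : Adj x y) (hx : isK x ∨ isZ x) : ph2 y = !(ph2 x) := by
  cases x with
  | K p a b c =>
    cases y with
    | K p' a' b' c' => exact h.1
    | _ => exact False.elim h
  | Z p j =>
    cases y with
    | Z p' j' => exact h.1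
    | _ => exact False.elim h
  | _ => rcases hx with hx | hx <;> exact False.elim hx

theorem ph3_shift {x y : V} (h : Adj x y) (hx : isC x ∨ isZ x) : ph3 y = ph3 x + 1 := by
  cases x with
  | C j =>
    cases y with
    | C j' => exact h
    | _ => exact False.elim h
  | Z p j =>
    cases y with
    | Z p' j' => exact h.2
    | _ => exact False.elim h
  | _ => rcases hx with hx | hx <;> exact False.elim hx

/-- The operation on tuples without sources. -/
noncomputable def inn [NeZero m] (z : ℕ) (h : Fin m → V) : V :=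
  if AA (fun i => isC (h i)) then
    .C (ph3 (h (dict (fun i => isC (h i)) (fun i => ph3 (h i)))))
  else if AA (fun i => isK (h i)) then
    .K (ph2 (h (dict (fun i => isK (h i)) (fun i => ph2 (h i)))))
      (decide (Few z (fun i => bA (h i)))) (decide (Few z (fun i => bB (h i))))
      (decide (Few z (fun i => bC (h i))))
  else
    .Z (ph2 (h (dict (fun i => isK (h i) ∨ isZ (h i)) (fun i => ph2 (h i)))))
      (ph3 (h (dict (fun i => isC (h i) ∨ isZ (h i)) (fun i => ph3 (h i)))))

/-- The near-unanimity operation with threshold `z`. -/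
noncomputable def F [NeZero m] (z : ℕ) (h : Fin m → V) : V :=
  if ∃ i, isS (h i) then
    if hx : ∃ x, ¬ isS x ∧ AA (fun i => h i = x) then hx.choose
    else if (∃ i, h i = .s) ∧ AA (fun i => h i = .s ∨ isC (h i)) then .s
    else if AA (fun i => isC (h i)) then
      .C (ph3 (h (dict (fun i => isC (h i)) (fun i => ph3 (h i)))))
    else .t
  else inn z h

theorem inn_adj [NeZero m] (hm : 3 ≤ m) {z z' : ℕ} (hz : 2 * z ≤ z') (hz' : 2 * z' < m)
    {h h' : Fin m → V} (hadj : ∀ i, Adj (h i) (h' i)) (hS : ∀ i, ¬ isS (h i)) :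
    Adj (inn z h) (inn z' h') := by
  have hCiff : ∀ i, isC (h i) ↔ isC (h' i) := fun i => isC_iff (hadj i) (hS i)
  have hKiff : ∀ i, isK (h i) ↔ isK (h' i) := fun i => isK_iff (hadj i) (hS i)
  have hZiff : ∀ i, isZ (h i) ↔ isZ (h' i) := fun i => isZ_iff (hadj i) (hS i)
  by_cases hC : AA (fun i => isC (h i))
  · have hC' : AA (fun i => isC (h' i)) := aa_mono (fun i => (hCiff i).1) hC
    simp only [inn, if_pos hC, if_pos hC']
    obtain ⟨k, hk, -⟩ := aa_both hm hC hC
    exact vote_shift (σ := fun j => j + 1) (add_left_injective 1) hCiff ⟨k, hk⟩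
      (fun i hi => ph3_shift (hadj i) (Or.inl hi))
  · have hC' : ¬ AA (fun i => isC (h' i)) := fun hh => hC (aa_mono (fun i => (hCiff i).2) hh)
    by_cases hK : AA (fun i => isK (h i))
    · have hK' : AA (fun i => isK (h' i)) := aa_mono (fun i => (hKiff i).1) hK
      simp only [inn, if_neg hC, if_neg hC', if_pos hK, if_pos hK']
      obtain ⟨k, hk, -⟩ := aa_both hm hK hK
      refine ⟨?_, ?_, ?_, ?_, ?_, ?_⟩
      · exact vote_shift (σ := fun j => !j) Bool.not_injective hKiff ⟨k, hk⟩
          (fun i hi => ph2_shift (hadj i) (Or.inl hi))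
      · simp only [decide_eq_true_eq]
        exact few_mono (by omega) (fun i => adj_ab (hadj i))
      · simp only [decide_eq_true_eq]
        exact few_mono (by omega) (fun i => adj_bc (hadj i))
      · simp only [decide_eq_true_eq]
        exact few_and hz (fun i => adj_and (hadj i))
      · simp only [decide_eq_true_eq]
        rintro ⟨h1, h2⟩
        obtain ⟨i, hi⟩ := few_both (by omega) h1 h2
        exact adj_valid_left (hadj i) hi
      · simp only [decide_eq_true_eq]
        rintro ⟨h1, h2⟩
        obtain ⟨i, hi⟩ := few_both (by omega) h1 h2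
        exact adj_valid (hadj i) hi
    · have hK' : ¬ AA (fun i => isK (h' i)) := fun hh => hK (aa_mono (fun i => (hKiff i).2) hh)
      simp only [inn, if_neg hC, if_neg hC', if_neg hK, if_neg hK']
      have ⟨k, hk⟩ : ∃ k, isK (h k) ∨ isZ (h k) := by
        by_contra hcon
        push Not at hcon
        refine hC ⟨0, fun i _ => ?_⟩
        rcases cases_nonS (hS i) with h1 | h1 | h1
        · exact absurd h1 (hcon i).1
        · exact h1
        · exact absurd h1 (hcon i).2
      have ⟨l, hl⟩ : ∃ k, isC (h k) ∨ isZ (h k) := by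
        by_contra hcon
        push Not at hcon
        refine hK ⟨0, fun i _ => ?_⟩
        rcases cases_nonS (hS i) with h1 | h1 | h1
        · exact h1
        · exact absurd h1 (hcon i).1
        · exact absurd h1 (hcon i).2
      refine ⟨?_, ?_⟩
      · exact vote_shift (σ := fun j => !j) Bool.not_injective
          (fun i => or_congr (hKiff i) (hZiff i)) ⟨k, hk⟩ (fun i hi => ph2_shift (hadj i) hi)
      · exact vote_shift (σ := fun j => j + 1) (add_left_injective 1)
          (fun i => or_congr (hCiff i) (hZiff i)) ⟨l, hl⟩ (fun i hi => ph3_shift (hadj i) hi)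

/-- Almost constant source tuples: the common value is a common in-neighbour. -/
theorem adj_inn_of_aa [NeZero m] (hm : 3 ≤ m) {z' : ℕ} (hz : 1 ≤ z') (hz' : 2 * z' < m)
    {h h' : Fin m → V} (hadj : ∀ i, Adj (h i) (h' i)) {x : V} (hx : ¬ isS x)
    (hh : AA (fun i => h i = x)) : Adj x (inn z' h') := by
  obtain ⟨j, hj⟩ := hh
  have hj' : ∀ i, i ≠ j → Adj x (h' i) := by
    intro i hi
    have := hadj i
    rwa [hj i hi] at this
  cases x with
  | s => exact absurd trivial hx
  | t => exact absurd trivial hx
  | C q =>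
    have hC' : AA (fun i => isC (h' i)) := ⟨j, fun i hi => isC_of_adj (hj' i hi) trivial⟩
    simp only [inn, if_pos hC']
    have key : (fun i => ph3 (h' i)) (dict (fun i => isC (h' i)) (fun i => ph3 (h' i))) = q + 1 :=
      vote_eq hm (j := j) (fun k hk =>
        ⟨isC_of_adj (hj' k hk) trivial, ph3_shift (hj' k hk) (Or.inl trivial)⟩)
    exact key
  | Z p q =>
    have hZ' : AA (fun i => isZ (h' i)) := ⟨j, fun i hi => isZ_of_adj (hj' i hi) trivial⟩
    have hC' : ¬ AA (fun i => isC (h' i)) := by
      intro hc
      obtain ⟨i, h1, h2⟩ := aa_both hm hc hZ'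
      exact not_isZ_of_isC h1 h2
    have hK' : ¬ AA (fun i => isK (h' i)) := by
      intro hc
      obtain ⟨i, h1, h2⟩ := aa_both hm hc hZ'
      exact not_isZ_of_isK h1 h2
    simp only [inn, if_neg hC', if_neg hK']
    refine ⟨?_, ?_⟩
    · exact vote_eq (a := !p) hm (j := j) (fun k hk =>
        ⟨Or.inr (isZ_of_adj (hj' k hk) trivial), ph2_shift (hj' k hk) (Or.inr trivial)⟩)
    · exact vote_eq (a := q + 1) hm (j := j) (fun k hk =>
        ⟨Or.inr (isZ_of_adj (hj' k hk) trivial), ph3_shift (hj' k hk) (Or.inr trivial)⟩)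
  | K p a b c =>
    have hK' : AA (fun i => isK (h' i)) := ⟨j, fun i hi => isK_of_adj (hj' i hi) trivial⟩
    have hC' : ¬ AA (fun i => isC (h' i)) := by
      intro hc
      obtain ⟨i, h1, h2⟩ := aa_both hm hc hK'
      exact not_isC_of_isK h2 h1
    simp only [inn, if_neg hC', if_pos hK']
    obtain ⟨k, hk, -⟩ := exists_third hm j j
    refine ⟨?_, ?_, ?_, ?_, ?_, ?_⟩
    · exact vote_eq (a := !p) hm (j := j) (fun k hk =>
        ⟨isK_of_adj (hj' k hk) trivial, ph2_shift (hj' k hk) (Or.inl trivial)⟩)
    · intro ha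
      simp only [decide_eq_true_eq]
      exact few_of_aa hz ⟨j, fun i hi => adj_ab (hj' i hi) ha⟩
    · intro ha
      simp only [decide_eq_true_eq]
      exact few_of_aa hz ⟨j, fun i hi => adj_bc (hj' i hi) ha⟩
    · intro ha hb
      simp only [decide_eq_true_eq]
      exact few_of_aa hz ⟨j, fun i hi => adj_and (hj' i hi) ha hb⟩
    · exact adj_valid_left (hj' k hk)
    · simp only [decide_eq_true_eq]
      rintro ⟨h1, h2⟩
      obtain ⟨i, hi⟩ := few_both (by omega) h1 h2
      exact adj_valid (hadj i) hi

theorem F_adj [NeZero m] (hm : 3 ≤ m) {z z' : ℕ} (hz1 : 1 ≤ z) (hz : 2 * z ≤ z')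
    (hz' : 2 * z' < m) {h h' : Fin m → V} (hadj : ∀ i, Adj (h i) (h' i)) :
    Adj (F z h) (F z' h') := by
  have hS' : ¬ ∃ i, isS (h' i) := by
    rintro ⟨i, hi⟩
    exact not_isS_of_adj (hadj i) hi
  have hF' : F z' h' = inn z' h' := by simp only [F, if_neg hS']
  rw [hF']
  by_cases hS : ∃ i, isS (h i)
  · simp only [F, if_pos hS]
    have hvalid : ¬ (Few z' (fun i => bA (h' i)) ∧ Few z' (fun i => bB (h' i))) := by
      rintro ⟨h1, h2⟩
      obtain ⟨i, hi⟩ := few_both (by omega) h1 h2
      exact adj_valid (hadj i) hi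
    by_cases hx : ∃ x, ¬ isS x ∧ AA (fun i => h i = x)
    · rw [dif_pos hx]
      exact adj_inn_of_aa hm (by omega) hz' hadj hx.choose_spec.1 hx.choose_spec.2
    · rw [dif_neg hx]
      by_cases h1 : (∃ i, h i = .s) ∧ AA (fun i => h i = .s ∨ isC (h i))
      · rw [if_pos h1]
        by_cases hC' : AA (fun i => isC (h' i))
        · simp only [inn, if_pos hC']
          trivial
        · by_cases hK' : AA (fun i => isK (h' i))
          · simp only [inn, if_neg hC', if_pos hK']
            have hA : Few z' (fun i => bA (h' i)) := by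
              refine few_of_aa_aa (by omega) h1.2 hK' ?_
              rintro i (h2 | h2) h3
              · have := hadj i
                rw [h2] at this
                exact adj_s this h3
              · exact absurd (isC_of_adj (hadj i) h2) (not_isC_of_isK h3)
            refine ⟨by simpa using hA, ?_⟩
            simp only [decide_eq_false_iff_not]
            exact fun hB => hvalid ⟨hA, hB⟩
          · simp only [inn, if_neg hC', if_neg hK']
            trivial
      · rw [if_neg h1]
        have hback : AA (fun i => isC (h' i)) → AA (fun i => isC (h i)) := by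
          intro hc
          have h2 : AA (fun i => h i = .s ∨ isC (h i)) :=
            aa_mono (fun i hi => isC_back (hadj i) hi) hc
          have h3 : ¬ ∃ i, h i = .s := fun h3 => h1 ⟨h3, h2⟩
          push Not at h3
          exact aa_mono (fun i hi => hi.resolve_left (h3 i)) h2
        by_cases hC : AA (fun i => isC (h i))
        · rw [if_pos hC]
          have hC' : AA (fun i => isC (h' i)) := aa_mono (fun i => isC_of_adj (hadj i)) hC
          have h2 : AA (fun i => h i = .s ∨ isC (h i)) := aa_mono (fun i hi => Or.inr hi) hC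
          have h3 : ¬ ∃ i, h i = .s := fun h3 => h1 ⟨h3, h2⟩
          push Not at h3
          have hiff : ∀ i, isC (h i) ↔ isC (h' i) := fun i =>
            ⟨isC_of_adj (hadj i), fun hi => (isC_back (hadj i) hi).resolve_left (h3 i)⟩
          simp only [inn, if_pos hC']
          obtain ⟨k, hk, -⟩ := aa_both hm hC hC
          exact vote_shift (σ := fun j => j + 1) (add_left_injective 1) hiff ⟨k, hk⟩
            (fun i hi => ph3_shift (hadj i) (Or.inl hi))
        · rw [if_neg hC]
          have hC' : ¬ AA (fun i => isC (h' i)) := fun hc => hC (hback hc)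
          by_cases hK' : AA (fun i => isK (h' i))
          · simp only [inn, if_neg hC', if_pos hK']
            show ¬ (_ ∧ _)
            simpa using hvalid
          · simp only [inn, if_neg hC', if_neg hK']
            trivial
  · have hFi : F z h = inn z h := by simp only [F, if_neg hS]
    rw [hFi]
    push Not at hS
    exact inn_adj hm hz hz' hadj hS

theorem inn_of_aa [NeZero m] (hm : 3 ≤ m) {z : ℕ} (hz : 1 ≤ z) (hz' : z + 1 < m)
    {h : Fin m → V} {x : V} (hx : ¬ isS x) (hh : AA (fun i => h i = x)) : inn z h = x := by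
  obtain ⟨j, hj0⟩ := hh
  have hj : ∀ i, i ≠ j → h i = x := hj0
  cases x with
  | s => exact absurd trivial hx
  | t => exact absurd trivial hx
  | C q =>
    have hC' : AA (fun i => isC (h i)) := ⟨j, fun i hi => by beta_reduce; rw [hj i hi]; trivial⟩
    simp only [inn, if_pos hC']
    congr 1
    exact vote_eq (a := q) (x := fun i => ph3 (h i)) hm (j := j)
      (fun k hk => ⟨by rw [hj k hk]; trivial, by rw [hj k hk]; rfl⟩)
  | Z p q =>
    have hZ' : AA (fun i => isZ (h i)) := ⟨j, fun i hi => by beta_reduce; rw [hj i hi]; trivial⟩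
    have hC' : ¬ AA (fun i => isC (h i)) := by
      intro hc
      obtain ⟨i, h1, h2⟩ := aa_both hm hc hZ'
      exact not_isZ_of_isC h1 h2
    have hK' : ¬ AA (fun i => isK (h i)) := by
      intro hc
      obtain ⟨i, h1, h2⟩ := aa_both hm hc hZ'
      exact not_isZ_of_isK h1 h2
    simp only [inn, if_neg hC', if_neg hK']
    congr 1
    · exact vote_eq (a := p) (x := fun i => ph2 (h i)) hm (j := j)
        (fun k hk => ⟨by rw [hj k hk]; right; trivial, by rw [hj k hk]; rfl⟩)
    · exact vote_eq (a := q) (x := fun i => ph3 (h i)) hm (j := j)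
        (fun k hk => ⟨by rw [hj k hk]; right; trivial, by rw [hj k hk]; rfl⟩)
  | K p a b c =>
    have hK' : AA (fun i => isK (h i)) := ⟨j, fun i hi => by beta_reduce; rw [hj i hi]; trivial⟩
    have hC' : ¬ AA (fun i => isC (h i)) := by
      intro hc
      obtain ⟨i, h1, h2⟩ := aa_both hm hc hK'
      exact not_isC_of_isK h2 h1
    have bit : ∀ (r : Bool) (Q : V → Prop), (Q (.K p a b c) ↔ r = true) →
        decide (Few z (fun i => Q (h i))) = r := by
      intro r Q hQ
      cases r with
      | true =>
        simp only [decide_eq_true_eq]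
        exact few_of_aa hz ⟨j, fun i hi => by beta_reduce; rw [hj i hi]; exact hQ.2 rfl⟩
      | false =>
        simp only [decide_eq_false_iff_not]
        refine not_few_of_aa hz' ⟨j, fun i hi => ?_⟩
        beta_reduce
        rw [hj i hi, hQ]
        simp
    simp only [inn, if_neg hC', if_pos hK']
    congr 1
    · exact vote_eq (a := p) (x := fun i => ph2 (h i)) hm (j := j)
        (fun k hk => ⟨by rw [hj k hk]; trivial, by rw [hj k hk]; rfl⟩)
    · exact bit a bA Iff.rfl
    · exact bit b bB Iff.rfl
    · exact bit c bC Iff.rfl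

theorem F_nu [NeZero m] (hm : 3 ≤ m) {z : ℕ} (hz : 1 ≤ z) (hz' : z + 1 < m) (x y : V)
    (j : Fin m) : F z (Function.update (fun _ => x) j y) = x := by
  have hj : ∀ i, i ≠ j → Function.update (fun _ => x) j y i = x := by
    intro i hi
    rw [Function.update_of_ne hi]
  set h : Fin m → V := Function.update (fun _ => x) j y with hdef
  by_cases hS : ∃ i, isS (h i)
  · simp only [F, if_pos hS]
    by_cases hx : ∃ x', ¬ isS x' ∧ AA (fun i => h i = x')
    · rw [dif_pos hx]
      obtain ⟨i, h1, h2⟩ := aa_both hm hx.choose_spec.2 (⟨j, hj⟩ : AA (fun i => h i = x))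
      exact h1.symm.trans h2
    · rw [dif_neg hx]
      have hxS : isS x := by
        by_contra hcon
        exact hx ⟨x, hcon, j, hj⟩
      obtain ⟨k, hk, -⟩ := exists_third hm j j
      cases x with
      | s =>
        rw [if_pos ⟨⟨k, hj k hk⟩, j, fun i hi => Or.inl (hj i hi)⟩]
      | t =>
        have h1 : ¬ AA (fun i => h i = .s ∨ isC (h i)) := by
          intro hc
          obtain ⟨i, h1, h2⟩ := aa_both hm hc (⟨j, hj⟩ : AA (fun i => h i = .t))
          rw [h2] at h1
          rcases h1 with h1 | h1
          · exact V.noConfusion h1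
          · exact h1
        have h2 : ¬ AA (fun i => isC (h i)) := fun hc => h1 (aa_mono (fun i hi => Or.inr hi) hc)
        rw [if_neg (fun hc => h1 hc.2), if_neg h2]
      | K p a b c => exact False.elim hxS
      | C q => exact False.elim hxS
      | Z p q => exact False.elim hxS
  · simp only [F, if_neg hS]
    refine inn_of_aa hm hz hz' ?_ ⟨j, hj⟩
    intro hxS
    obtain ⟨k, hk, -⟩ := exists_third hm j j
    exact hS ⟨k, by rw [hj k hk]; exact hxS⟩

end Ops

/-! ## Finite parts of `ℚ × H` have near-unanimity operations -/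

section Levels

variable {m : ℕ}

theorem erase_nonempty (hm : 2 ≤ m) (j : Fin m) : (Finset.univ.erase j).Nonempty := by
  by_cases h : j = ⟨0, by omega⟩
  · refine ⟨⟨1, by omega⟩, ?_⟩
    subst h
    simp
  · exact ⟨⟨0, by omega⟩, by simpa using fun h' => h h'.symm⟩

theorem univ_ne (hm : 2 ≤ m) : (Finset.univ : Finset (Fin m)).Nonempty :=
  ⟨⟨0, by omega⟩, Finset.mem_univ _⟩

/-- The second smallest of the numbers `q i`. -/
noncomputable def sm2 (hm : 2 ≤ m) (q : Fin m → ℚ) : ℚ :=
  Finset.univ.sup' (univ_ne hm)
    (fun j => (Finset.univ.erase j).inf' (erase_nonempty hm j) q)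

theorem sm2_lt (hm : 2 ≤ m) {q q' : Fin m → ℚ} (h : ∀ i, q i < q' i) :
    sm2 hm q < sm2 hm q' := by
  unfold sm2
  rw [Finset.sup'_lt_iff]
  intro j _
  obtain ⟨k, hk, he⟩ := Finset.exists_mem_eq_inf' (erase_nonempty hm j) q'
  have h1 : (Finset.univ.erase j).inf' (erase_nonempty hm j) q <
      (Finset.univ.erase j).inf' (erase_nonempty hm j) q' := by
    rw [he]
    exact lt_of_le_of_lt (Finset.inf'_le q hk) (h k)
  exact h1.trans_le (Finset.le_sup'
    (fun j => (Finset.univ.erase j).inf' (erase_nonempty hm j) q') (Finset.mem_univ j))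

theorem sm2_mem (hm : 2 ≤ m) {q : Fin m → ℚ} {S : Finset ℚ} (h : ∀ i, q i ∈ S) :
    sm2 hm q ∈ S := by
  unfold sm2
  obtain ⟨j, -, hj⟩ := Finset.exists_mem_eq_sup' (univ_ne hm)
    (fun j => (Finset.univ.erase j).inf' (erase_nonempty hm j) q)
  rw [hj]
  obtain ⟨k, -, hk⟩ := Finset.exists_mem_eq_inf' (erase_nonempty hm j) q
  rw [hk]
  exact h k

theorem sm2_nu (hm : 2 ≤ m) (hm3 : 3 ≤ m) {q : Fin m → ℚ} {a : ℚ} {j : Fin m}
    (h : ∀ i, i ≠ j → q i = a) : sm2 hm q = a := by
  unfold sm2
  apply le_antisymm
  · apply Finset.sup'_le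
    intro k _
    obtain ⟨l, hl1, hl2⟩ := exists_third hm3 j k
    rw [← h l hl1]
    exact Finset.inf'_le q (Finset.mem_erase.2 ⟨hl2, Finset.mem_univ _⟩)
  · refine le_trans ?_ (Finset.le_sup'
      (fun j => (Finset.univ.erase j).inf' (erase_nonempty hm j) q) (Finset.mem_univ j))
    apply Finset.le_inf'
    intro k hk
    rw [h k (Finset.mem_erase.1 hk).1]

/-- The number of elements of `S` which are at most `q`. -/
def rank (S : Finset ℚ) (q : ℚ) : ℕ := (S.filter (fun r => r ≤ q)).card

theorem rank_lt {S : Finset ℚ} {q q' : ℚ} (h : q < q') (hq' : q' ∈ S) :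
    rank S q < rank S q' := by
  apply Finset.card_lt_card
  rw [Finset.ssubset_iff_of_subset]
  · exact ⟨q', by simp [hq'], by simp [h]⟩
  · intro r hr
    simp only [Finset.mem_filter] at hr ⊢
    exact ⟨hr.1, hr.2.trans h.le⟩

theorem rank_le (S : Finset ℚ) (q : ℚ) : rank S q ≤ S.card :=
  Finset.card_le_card (Finset.filter_subset _ _)

end Levels

theorem exists_nu {W : Set (ℚ × V)} (hW : W.Finite) :
    ∃ m : ℕ, ∃ g : (Fin m → ℚ × V) → ℚ × V, PolOn (RatProd Adj) W g ∧
      ∀ x ∈ W, ∀ (y : ℚ × V) (j : Fin m), g (Function.update (fun _ => x) j y) = x := by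
  classical
  set S : Finset ℚ := (hW.image Prod.fst).toFinset with hS
  have hmem : ∀ x ∈ W, x.1 ∈ S := by
    intro x hx
    rw [hS, Set.Finite.mem_toFinset]
    exact ⟨x, hx, rfl⟩
  set m : ℕ := 2 * 2 ^ S.card + 4 with hm
  have hm2 : 2 ≤ m := by omega
  have hm3 : 3 ≤ m := by omega
  have : NeZero m := ⟨by omega⟩
  have hpow : ∀ q, 2 ^ rank S q ≤ 2 ^ S.card := fun q => Nat.pow_le_pow_right (by norm_num) (rank_le S q)
  have hone : ∀ q, 1 ≤ 2 ^ rank S q := fun q => Nat.one_le_two_pow
  refine ⟨m, fun x => (sm2 hm2 (fun i => (x i).1),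
    F (2 ^ rank S (sm2 hm2 (fun i => (x i).1))) (fun i => (x i).2)), ?_, ?_⟩
  · intro x y hx hy hxy
    have hlt : sm2 hm2 (fun i => (x i).1) < sm2 hm2 (fun i => (y i).1) :=
      sm2_lt hm2 (fun i => (hxy i).1)
    refine ⟨hlt, ?_⟩
    have hr := rank_lt hlt (sm2_mem hm2 (S := S) (fun i => hmem _ (hy i)))
    have h2 : 2 * 2 ^ rank S (sm2 hm2 (fun i => (x i).1)) ≤
        2 ^ rank S (sm2 hm2 (fun i => (y i).1)) := by
      rw [← pow_succ']
      exact Nat.pow_le_pow_right (by norm_num) hr
    have h3 := hpow (sm2 hm2 (fun i => (y i).1))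
    exact F_adj hm3 (hone _) h2 (by omega) (fun i => (hxy i).2)
  · intro x hx y j
    have h1 : sm2 hm2 (fun i => (Function.update (fun _ => x) j y i).1) = x.1 :=
      sm2_nu hm2 hm3 (j := j) (fun i hi => by rw [Function.update_of_ne hi])
    have h2 : (fun i => (Function.update (fun _ : Fin m => x) j y i).2) =
        Function.update (fun _ => x.2) j y.2 := by
      funext i
      by_cases hi : i = j
      · subst hi; simp
      · simp [Function.update_of_ne hi]
    have h3 := hpow x.1
    simp only [h1, h2]
    rw [F_nu hm3 (hone _) (by omega)]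

/-! ## The main theorem -/

theorem not_ppConstructs : ¬ PPConstructs (RatProd Adj) Adj := by
  classical
  rintro ⟨d, -, φ, ⟨α, hα⟩, ⟨β, hβ⟩⟩
  -- a finite set containing all elements used
  have hex : ∀ p : V × V, ∃ W : Set (ℚ × V), W.Finite ∧
      (Adj p.1 p.2 → HoldsOn (RatProd Adj) W φ (Fin.append (α p.1) (α p.2))) := by
    intro p
    by_cases hp : Adj p.1 p.2
    · obtain ⟨W, h1, h2⟩ := exists_finite_holdsOn φ _ (hα _ _ hp)
      exact ⟨W, h1, fun _ => h2⟩
    · exact ⟨∅, Set.finite_empty, fun h => absurd h hp⟩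
  choose U hU1 hU2 using hex
  set W : Set (ℚ × V) := (⋃ p, U p) ∪ Set.range (fun q : V × Fin d => α q.1 q.2) with hWdef
  have hW : W.Finite := (Set.finite_iUnion hU1).union (Set.finite_range _)
  have hαW : ∀ a k, α a k ∈ W := fun a k => Or.inr ⟨(a, k), rfl⟩
  obtain ⟨m, g, hg, hnu⟩ := exists_nu hW
  refine no_qnu (fun h => β (fun k => g (fun i => α (h i) k))) ?_ ?_
  · intro x y hxy
    apply hβ
    have key := holds_of_polOn hg φ (fun i => Fin.append (α (x i)) (α (y i))) ?_ ?_
    · have he : (fun k => g (fun i => Fin.append (α (x i)) (α (y i)) k)) =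
          Fin.append (fun k => g (fun i => α (x i) k)) (fun k => g (fun i => α (y i) k)) := by
        funext k
        refine Fin.addCases (fun k => ?_) (fun k => ?_) k
        · simp only [Fin.append_left]
        · simp only [Fin.append_right]
      rw [he] at key
      exact key
    · intro i k
      refine Fin.addCases (fun k => ?_) (fun k => ?_) k
      · rw [Fin.append_left]; exact hαW _ _
      · rw [Fin.append_right]; exact hαW _ _
    · intro i
      exact holdsOn_mono (Set.subset_union_of_subset_left (Set.subset_iUnion U (x i, y i)) _) _ _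
        (hU2 (x i, y i) (hxy i))
  · intro x y j
    have h1 : ∀ k, g (fun i => α (Function.update (fun _ => x) j y i) k) = α x k := by
      intro k
      have h2 : (fun i => α (Function.update (fun _ : Fin m => x) j y i) k) =
          Function.update (fun _ => α x k) j (α y k) := by
        funext i
        by_cases hi : i = j
        · subst hi; simp
        · simp [Function.update_of_ne hi]
      rw [h2]
      exact hnu _ (hαW x k) _ _
    have h3 : ∀ k, g (fun _ => α x k) = α x k := by
      intro k
      have h4 := hnu _ (hαW x k) (α x k) j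
      rwa [Function.update_eq_self] at h4
    simp only [h1, h3]

end Pool.Agent.H21.QH
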